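import Pool.Agent.H59.LIN.Targets

/-!
# MP_559314_gt, row HLO: the HOMFLYPT weight system depends only on the sub-diagram
-/

set_option autoImplicit false

open Finset Polynomial

namespace Pool.Agent.H98.LIN

open Pool.Agent.H59.LIN

theorem sub_filter {d : ℕ} (D : CD d) {B C : Finset (Fin d)} (h : B ⊆ C) :
    sub D B = (sub D C).filter fun x => x.1 ∈ B := by
  unfold sub
  rw [List.filter_filter]
  apply List.filter_congr
  intro x _
  by_cases hx : x.1 ∈ B
  · simp [hx, h hx]
  · simp [hx]

theorem sub_map {d d' : ℕ} (D : CD d) (D' : CD d') (j : Fin d' ↪ Fin d) {A B : Finset (Fin d')}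
    (h : sub D (A.map j) = (sub D' A).map (rel j)) (hB : B ⊆ A) :
    sub D (B.map j) = (sub D' B).map (rel j) := by
  rw [sub_filter D (Finset.map_subset_map.2 hB), sub_filter D' hB, h, List.filter_map]
  congr 1
  apply List.filter_congr
  intro x _
  simp [rel]

theorem EE_rel {d d' : ℕ} (N : ℕ) (j : Fin d' ↪ Fin d) (I : Fin d → Fin N × Fin N)
    (x : Fin d' × Bool) : EE I (rel j x) = EE (fun y => I (j y)) x := rfl

theorem sum_comp {d d' : ℕ} (j : Fin d' ↪ Fin d) {G : Type} [Fintype G] [DecidableEq G]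
    (f : (Fin d' → G) → ℤ) :
    ∑ I : Fin d → G, f (fun y => I (j y)) = (Fintype.card G : ℤ) ^ (d - d') * ∑ J, f J := by
  classical
  have h1 : ∑ I : Fin d → G, f (fun y => I (j y)) =
      ∑ q : ({x // x ∈ Set.range j} → G) × ({x // ¬ x ∈ Set.range j} → G),
        f (fun y => q.1 ⟨j y, Set.mem_range_self y⟩) :=
    Fintype.sum_equiv (Equiv.piEquivPiSubtypeProd (fun x => x ∈ Set.range j) fun _ => G) _ _
      (fun I => rfl)
  rw [h1, Fintype.sum_prod_type]
  simp only [Finset.sum_const]
  rw [← Finset.smul_sum, nsmul_eq_mul, Finset.card_univ, Fintype.card_fun]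
  have h2 : Fintype.card {x // ¬ x ∈ Set.range j} = d - d' := by
    rw [Fintype.card_subtype_compl, Fintype.card_fin]
    congr 1
    have := Set.card_range_of_injective j.injective
    rw [Fintype.card_fin] at this
    exact (Fintype.card_congr (Equiv.refl _)).trans this
  rw [h2]
  push_cast
  congr 1
  exact Fintype.sum_equiv (Equiv.arrowCongr (Equiv.ofInjective j j.injective).symm (Equiv.refl G))
    _ _ (fun q => rfl)

theorem circ_map (hTRF : T_TRF) {d d' : ℕ} (hd' : 0 < d') (D : CD d) (D' : CD d')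
    (j : Fin d' ↪ Fin d) (B : Finset (Fin d')) (h : sub D (B.map j) = (sub D' B).map (rel j)) :
    circ D (B.map j) = circ D' B := by
  have hdd : d' ≤ d := by
    have := Fintype.card_le_of_injective j j.injective
    rwa [Fintype.card_fin, Fintype.card_fin] at this
  have h1 := hTRF d D (B.map j) 2 (by omega)
  have h2 := hTRF d' D' B 2 hd'
  have h3 : ∑ I : Fin d → Fin 2 × Fin 2, (((sub D (B.map j)).map (EE I)).prod).trace =
      (Fintype.card (Fin 2 × Fin 2) : ℤ) ^ (d - d') *
        ∑ J : Fin d' → Fin 2 × Fin 2, (((sub D' B).map (EE J)).prod).trace := by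
    rw [← sum_comp j fun J => (((sub D' B).map (EE J)).prod).trace]
    refine Finset.sum_congr rfl fun I _ => ?_
    rw [h, List.map_map]
    rfl
  rw [h1, h2, Fintype.card_prod, Fintype.card_fin, Finset.card_map] at h3
  have hB : B.card ≤ d' := by
    have := Finset.card_le_univ B
    rwa [Fintype.card_fin] at this
  have h4 : (2 : ℤ) ^ (2 * (d - B.card) + circ D (B.map j)) =
      2 ^ (2 * (d - d') + (2 * (d' - B.card) + circ D' B)) := by
    have e4 : ((2 * 2 : ℕ) : ℤ) = 2 ^ 2 := by norm_num
    rw [e4, ← pow_mul, Nat.cast_ofNat] at h3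
    rw [h3, ← pow_add]
  have h5 : 2 * (d - B.card) + circ D (B.map j) =
      2 * (d - d') + (2 * (d' - B.card) + circ D' B) :=
    pow_right_injective₀ (a := (2 : ℤ)) (by norm_num) (by norm_num) h4
  omega

theorem circ_empty (hTRF : T_TRF) {d : ℕ} (D : CD d) : circ D ∅ - 1 = 0 := by
  rcases Nat.eq_zero_or_pos d with rfl | hd
  · have : circ D ∅ = 0 := by
      unfold circ ncl
      simp
    rw [this]
  · have h1 := hTRF d D ∅ 2 hd
    have h2 : sub D ∅ = [] := by
      unfold sub
      simp
    rw [h2] at h1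
    simp only [List.map_nil, List.prod_nil, Matrix.trace_one, Finset.sum_const, Finset.card_univ,
      Fintype.card_fun, Fintype.card_prod, Fintype.card_fin, nsmul_eq_mul, Finset.card_empty] at h1
    have h4 : (2 : ℤ) ^ (2 * d + 1) = 2 ^ (2 * (d - 0) + circ D ∅) := by
      have e4 : (((2 * 2) ^ d : ℕ) : ℤ) * ((2 : ℕ) : ℤ) = 2 ^ (2 * d + 1) := by
        push_cast
        rw [pow_succ, pow_mul]
        norm_num
      rw [← e4]
      exact_mod_cast h1
    have h5 : 2 * d + 1 = 2 * (d - 0) + circ D ∅ :=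
      pow_right_injective₀ (a := (2 : ℤ)) (by norm_num) (by norm_num) h4
    omega

/-- HLO -/
theorem pf_HLO (hTRF : Pool.Agent.H59.LIN.T_TRF) : Pool.Agent.H59.LIN.T_HLO := by
  intro d d' D D' j A h
  unfold hh
  rw [Finset.card_map]
  symm
  refine Finset.sum_nbij (fun B => B.map j) ?_ ?_ ?_ ?_
  · intro B hB
    rw [Finset.mem_powerset] at hB ⊢
    exact Finset.map_subset_map.2 hB
  · intro B _ C _ hBC
    exact Finset.map_injective j hBC
  · intro C hC
    rw [Finset.mem_coe, Finset.mem_powerset, Finset.subset_map_iff] at hC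
    obtain ⟨u, hu, rfl⟩ := hC
    exact ⟨u, Finset.mem_coe.2 (Finset.mem_powerset.2 hu), rfl⟩
  · intro B hB
    rw [Finset.mem_powerset] at hB
    rw [Finset.card_map]
    congr 2
    rcases Nat.eq_zero_or_pos d' with rfl | hd'
    · have hB0 : B = ∅ := Finset.eq_empty_of_isEmpty B
      rw [hB0, Finset.map_empty, circ_empty hTRF, circ_empty hTRF]
    · rw [circ_map hTRF hd' D D' j B (sub_map D D' j h hB)]

end Pool.Agent.H98.LIN
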